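import Pool.Agent.N589.LL.Tasks

/-!
# LL/17: the Hecke characters `|.|^{1/2}` and `|.|^{-1/2}` of `F_2(t)`
-/

open scoped WithZero Polynomial Topology
open IsDedekindDomain RestrictedProduct

noncomputable section

namespace Pool.Agent.N558.LL

open N589LL

/-! ## Sizes of the residue fields -/

lemma card_span_singleton {P : A} (hP : P ≠ 0) :
    Nat.card (A ⧸ Ideal.span {P}) = 2 ^ P.natDegree := by
  have : Module.Finite (ZMod 2) (AdjoinRoot P) := (AdjoinRoot.powerBasis hP).finite
  have h1 := Module.natCard_eq_pow_finrank (K := ZMod 2) (V := AdjoinRoot P)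
  have h2 : Module.finrank (ZMod 2) (AdjoinRoot P) = P.natDegree := by
    rw [(AdjoinRoot.powerBasis hP).finrank, AdjoinRoot.powerBasis_dim]
  rw [h2, Nat.card_zmod] at h1
  exact h1

lemma two_le_qv (v : Place) : 2 ≤ qv v := by
  rcases v with _ | v
  · exact le_rfl
  · obtain ⟨P, hP⟩ := (IsPrincipalIdealRing.principal v.asIdeal).principal
    have hP' : v.asIdeal = Ideal.span {P} := hP
    have hne : P ≠ 0 := by
      rintro rfl
      exact v.ne_bot (by rw [hP']; simp)
    have hirr : Irreducible P := by
      have := v.isPrime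
      rw [hP'] at this
      exact ((Ideal.span_singleton_prime hne).1 this).irreducible
    have : qv (some v) = 2 ^ P.natDegree := by
      rw [qv, hP', card_span_singleton hne]
    rw [this]
    exact Nat.le_self_pow (Polynomial.natDegree_pos_iff_degree_pos.2
      (Polynomial.degree_pos_of_irreducible hirr)).ne' 2

/-! ## The local absolute values -/

lemma qv_pos (v : Place) : (0 : ℝ) < qv v := by
  have := two_le_qv v
  exact_mod_cast (by omega : 0 < qv v)

lemma nrm_pos (v : Place) (x : (Kv v)ˣ) : 0 < nrm v x := zpow_pos (qv_pos v) _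

lemma val_ne_zero (v : Place) (x : (Kv v)ˣ) : val v (x : Kv v) ≠ 0 :=
  (Valuation.ne_zero_iff _).2 x.ne_zero

lemma nrm_mul (v : Place) (x y : (Kv v)ˣ) : nrm v (x * y) = nrm v x * nrm v y := by
  rw [nrm, nrm, nrm, Units.val_mul, map_mul, WithZero.log_mul (val_ne_zero v x) (val_ne_zero v y),
    zpow_add₀ (qv_pos v).ne']

lemma nrm_one (v : Place) : nrm v 1 = 1 := by simp [nrm]

lemma nrm_eq_one {v : Place} {x : (Kv v)ˣ} (hx : x ∈ Uv v) : nrm v x = 1 := by
  have : val v (x : Kv v) = 1 := hx
  rw [nrm, this, WithZero.log_one, zpow_zero]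

/-! ## The idele norm -/

lemma mulSupport_finite (y : Idele) : (Function.mulSupport fun v => nrm v (y v)).Finite := by
  have h := y.2
  rw [Filter.eventually_cofinite] at h
  refine h.subset ?_
  intro v hv hv'
  exact hv (nrm_eq_one hv')

/-- The norm of ideles. -/
def idn : Idele →* ℝ where
  toFun y := ∏ᶠ v, nrm v (y v)
  map_one' := by
    have : (fun v => nrm v ((1 : Idele) v)) = fun _ => 1 := by
      funext v; exact nrm_one v
    rw [this, finprod_one]
  map_mul' x y := by
    rw [← finprod_mul_distrib (mulSupport_finite x) (mulSupport_finite y)]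
    refine finprod_congr fun v => ?_
    exact nrm_mul v _ _

lemma idn_apply (y : Idele) : idn y = ∏ᶠ v, nrm v (y v) := rfl

lemma idn_pos (y : Idele) : 0 < idn y := by
  rw [idn_apply, finprod_eq_prod _ (mulSupport_finite y)]
  exact Finset.prod_pos fun v _ => nrm_pos v _

lemma idn_singI (v : Place) (x : (Kv v)ˣ) : idn (singI v x) = nrm v x := by
  classical
  rw [idn_apply, finprod_eq_single _ v]
  · congr 1
    exact RestrictedProduct.mulSingle_eq_same ..
  · intro w hw
    have : (singI v x) w = 1 := RestrictedProduct.mulSingle_eq_of_ne _ _ hw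
    rw [this, nrm_one]

/-! ## Topology -/

lemma isOpen_Uv (v : Place) : IsOpen (Uv v : Set (Kv v)ˣ) := by
  refine (Uv v).isOpen_of_mem_nhds (g := 1) ?_
  have h1 : {y : Kv v | val v y = val v 1} ∈ 𝓝 (1 : Kv v) :=
    Valued.locally_const (by simp)
  have h2 : Filter.Tendsto (fun u : (Kv v)ˣ => (u : Kv v)) (𝓝 1) (𝓝 (1 : Kv v)) :=
    Units.continuous_val.tendsto 1
  filter_upwards [h2 h1] with u hu
  have : val v (u : Kv v) = val v 1 := hu
  rw [map_one] at this
  exact this

instance factUv : Fact (∀ v : Place, IsOpen (Uv v : Set (Kv v)ˣ)) := ⟨isOpen_Uv⟩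

instance topIdele : IsTopologicalGroup Idele := inferInstance

/-- A character trivial on the units of all completions is continuous. -/
lemma continuous_char (χ : Idele →* ℂˣ) (h : ∀ y : Idele, (∀ v, y v ∈ Uv v) → χ y = 1) :
    Continuous χ := by
  refine continuous_of_continuousAt_one χ ?_
  have h1 : {y : Idele | ∀ v, y v ∈ (Uv v : Set (Kv v)ˣ)} ∈ 𝓝 (1 : Idele) :=
    (RestrictedProduct.isOpen_forall_mem isOpen_Uv).mem_nhds fun v => one_mem (Uv v)
  have h2 : (χ : Idele → ℂˣ) =ᶠ[𝓝 1] fun _ => 1 := by
    filter_upwards [h1] with y hy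
    exact h y hy
  rw [ContinuousAt, map_one]
  exact Filter.Tendsto.congr' h2.symm tendsto_const_nhds

/-! ## The product formula -/

/-- The normalised absolute value of `K` at a place. -/
def gab (v : Place) (x : K) : ℝ := (qv v : ℝ) ^ (WithZero.log (pv v x))

lemma gab_one (v : Place) : gab v 1 = 1 := by simp [gab]

lemma gab_mul (v : Place) {x y : K} (hx : x ≠ 0) (hy : y ≠ 0) :
    gab v (x * y) = gab v x * gab v y := by
  rw [gab, gab, gab, map_mul, WithZero.log_mul ((Valuation.ne_zero_iff _).2 hx)
    ((Valuation.ne_zero_iff _).2 hy), zpow_add₀ (qv_pos v).ne']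

lemma gab_inv (v : Place) (x : K) : gab v x⁻¹ = (gab v x)⁻¹ := by
  rw [gab, gab, map_inv₀, WithZero.log_inv, zpow_neg]

/-- The product formula holds for `x`. -/
def PF (x : K) : Prop :=
  x ≠ 0 ∧ (Function.mulSupport fun v => gab v x).Finite ∧ ∏ᶠ v, gab v x = 1

lemma PF.mul {x y : K} (hx : PF x) (hy : PF y) : PF (x * y) := by
  have h : (fun v => gab v (x * y)) = fun v => gab v x * gab v y :=
    funext fun v => gab_mul v hx.1 hy.1
  refine ⟨mul_ne_zero hx.1 hy.1, ?_, ?_⟩
  · rw [h]
    exact (hx.2.1.union hy.2.1).subset (Function.mulSupport_mul _ _)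
  · rw [h, finprod_mul_distrib hx.2.1 hy.2.1, hx.2.2, hy.2.2, one_mul]

lemma PF.inv {x : K} (hx : PF x) : PF x⁻¹ := by
  have h : (fun v => gab v x⁻¹) = fun v => (gab v x)⁻¹ := funext fun v => gab_inv v x
  refine ⟨inv_ne_zero hx.1, ?_, ?_⟩
  · rw [h]
    exact hx.2.1.subset fun v hv => by simpa using hv
  · rw [h, finprod_inv_distrib, hx.2.2, inv_one]

lemma PF.one : PF 1 := by
  have h : (fun v => gab v 1) = fun _ => 1 := funext fun v => gab_one v
  refine ⟨one_ne_zero, ?_, ?_⟩
  · rw [h]; simp
  · rw [h, finprod_one]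

lemma unit_eq_one {u : A} (hu : IsUnit u) : u = 1 := by
  rw [Polynomial.isUnit_iff] at hu
  obtain ⟨c, hc, rfl⟩ := hu
  have : c = 1 := by
    have h0 : c ≠ 0 := hc.ne_zero
    revert h0
    revert c
    decide
  rw [this, Polynomial.C_1]

lemma PF.irreducible {P : A} (hP : Irreducible P) : PF (algebraMap A K P) := by
  classical
  have hne : algebraMap A K P ≠ 0 := by
    simpa using hP.ne_zero
  have hne' : (Ideal.span {P} : Ideal A) ≠ ⊥ := by simpa using hP.ne_zero
  have hprime : (Ideal.span {P} : Ideal A).IsPrime :=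
    (Ideal.span_singleton_prime hP.ne_zero).2 hP.prime
  let w : HeightOneSpectrum A := ⟨Ideal.span {P}, hprime, hne'⟩
  have hw : gab (some w) (algebraMap A K P) = ((2 : ℝ) ^ P.natDegree)⁻¹ := by
    have h1 : pv (some w) (algebraMap A K P) = WithZero.exp (-1) := by
      show w.valuation K (algebraMap A K P) = _
      rw [HeightOneSpectrum.valuation_of_algebraMap]
      exact w.intValuation_singleton hP.ne_zero rfl
    have h2 : (qv (some w) : ℝ) = 2 ^ P.natDegree := by
      rw [qv, show w.asIdeal = Ideal.span {P} from rfl, card_span_singleton hP.ne_zero]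
      push_cast
      rfl
    rw [gab, h1, h2, WithZero.log_exp, zpow_neg, zpow_one]
  have hinf : gab none (algebraMap A K P) = (2 : ℝ) ^ P.natDegree := by
    have h1 : pv none (algebraMap A K P) = WithZero.exp (P.natDegree : ℤ) := by
      show RatFunc.inftyValuation (ZMod 2) (algebraMap A K P) = _
      rw [RatFunc.inftyValuation_apply]
      exact RatFunc.inftyValuation.polynomial (ZMod 2) hP.ne_zero
    rw [gab, h1, WithZero.log_exp, zpow_natCast]
    rfl
  have hoth : ∀ v : Place, v ≠ some w → v ≠ none → gab v (algebraMap A K P) = 1 := by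
    intro v hv1 hv2
    rcases v with _ | v
    · exact absurd rfl hv2
    · have h1 : pv (some v) (algebraMap A K P) = 1 := by
        show v.valuation K (algebraMap A K P) = _
        rw [HeightOneSpectrum.valuation_eq_one_iff_notMem]
        intro hmem
        apply hv1
        congr 1
        ext1
        refine (Ring.DimensionLEOne.maximalOfPrime hne' hprime |>.eq_of_le v.isPrime.ne_top ?_).symm
        rwa [Ideal.span_singleton_le_iff_mem]
      rw [gab, h1, WithZero.log_one, zpow_zero]
  have hsub : (Function.mulSupport fun v => gab v (algebraMap A K P)) ⊆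
      (({some w, none} : Finset Place) : Set Place) := by
    intro v hv
    by_contra hcon
    simp only [Finset.coe_insert, Finset.coe_singleton, Set.mem_insert_iff,
      Set.mem_singleton_iff, not_or] at hcon
    exact hv (hoth v hcon.1 hcon.2)
  refine ⟨hne, (Finset.finite_toSet _).subset hsub, ?_⟩
  rw [finprod_eq_prod_of_mulSupport_subset _ hsub, Finset.prod_pair (by simp), hw, hinf]
  exact inv_mul_cancel₀ (by positivity)

lemma PF.poly {P : A} (hP : P ≠ 0) : PF (algebraMap A K P) := by
  induction P using WfDvdMonoid.induction_on_irreducible with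
  | zero => exact absurd rfl hP
  | unit u hu =>
    rw [unit_eq_one hu, map_one]
    exact PF.one
  | mul a i ha hi ih =>
    rw [map_mul]
    exact (PF.irreducible hi).mul (ih ha)

lemma PF.all {x : K} (hx : x ≠ 0) : PF x := by
  obtain ⟨a, b, hb, rfl⟩ := IsFractionRing.div_surjective (A := A) x
  have hb' : b ≠ 0 := nonZeroDivisors.ne_zero hb
  have ha : a ≠ 0 := by
    rintro rfl
    simp at hx
  rw [div_eq_mul_inv]
  exact (PF.poly ha).mul (PF.poly hb').inv

lemma idn_principal (x : Kˣ) (y : Idele) (h : ∀ v, (y v : Kv v) = incl v x) : idn y = 1 := by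
  rw [idn_apply]
  have : (fun v => nrm v (y v)) = fun v => gab v (x : K) := by
    funext v
    rw [nrm, gab, h v, val_incl]
  rw [this]
  exact (PF.all x.ne_zero).2.2

/-! ## The characters -/

/-- The character `|.|^s` of the idele class group. -/
def absChar (s : ℝ) : HeckeChar where
  χ :=
    { toFun := fun y => Units.mk0 (((idn y) ^ s : ℝ) : ℂ) (by
        exact_mod_cast (Real.rpow_pos_of_pos (idn_pos y) s).ne')
      map_one' := by
        ext
        simp
      map_mul' := fun x y => by
        ext
        simp only [map_mul, Units.val_mk0, Units.val_mul]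
        rw [Real.mul_rpow (idn_pos x).le (idn_pos y).le]
        push_cast
        rfl }
  continuous := by
    apply continuous_char
    intro y hy
    have : idn y = 1 := by
      rw [idn_apply]
      have : (fun v => nrm v (y v)) = fun _ => 1 := funext fun v => nrm_eq_one (hy v)
      rw [this, finprod_one]
    ext
    simp [this]
  trivial x y h := by
    have := idn_principal x y h
    ext
    simp [this]
  σ := s
  norm_eq v x := by
    show ‖(((idn (singI v x)) ^ s : ℝ) : ℂ)‖ = _
    rw [idn_singI, Complex.norm_real, Real.norm_eq_abs,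
      abs_of_pos (Real.rpow_pos_of_pos (nrm_pos v x) s)]

lemma absChar_singI (s : ℝ) (v : Place) (x : (Kv v)ˣ) :
    (((absChar s).χ (singI v x) : ℂˣ) : ℂ) = ((nrm v x ^ s : ℝ) : ℂ) := by
  show (((idn (singI v x)) ^ s : ℝ) : ℂ) = _
  rw [idn_singI]

end Pool.Agent.N558.LL

open Pool.Agent.N558.LL in
theorem N589LL.TaskChar_proof : N589LL.TaskChar := by
  refine ⟨absChar (1 / 2), absChar (-(1 / 2)), ?_, ?_⟩
  · show (-(1 / 2) : ℝ) ≤ 1 / 2
    norm_num
  · intro v a d
    rw [absChar_singI, absChar_singI, ← Complex.ofReal_mul, ← Complex.ofReal_mul,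
      Real.rpow_neg (nrm_pos v a).le, Real.div_rpow (nrm_pos v a).le (nrm_pos v d).le]
    have ha := (Real.rpow_pos_of_pos (nrm_pos v a) (1 / 2)).ne'
    have hd := (Real.rpow_pos_of_pos (nrm_pos v d) (1 / 2)).ne'
    rw [← Complex.ofReal_one, Complex.ofReal_inj]
    field_simp
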